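import Mathlib
import Pool.Agent.Helper73.BAOrder
import Pool.Agent.Helper73.BAComp
import Pool.Agent.Helper73.BAMain

/-!
# A computable copy of the interval algebra of `ω` that is no interval algebra of a copy of `ω`

There is a computable Boolean algebra isomorphic to `Intal(ω)` which is not computably isomorphic
to the canonical presentation of `Intal(L)` for any copy `L` of `ω` whose elements are natural
numbers.
-/

set_option autoImplicit false

namespace Pool.Agent.Results.MP_a2ec29_lc.Full

open Pool.Agent.Helper73.BA

/-- The half-open interval `(a, b]` of `L`. The endpoints are elements of `L`, or `⊥ = -∞`, or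
`⊤ = +∞`. -/
def interval {L : Type} [LinearOrder L] (a b : WithBot (WithTop L)) : Set L :=
  {x | a < ((x : WithTop L) : WithBot (WithTop L)) ∧ ((x : WithTop L) : WithBot (WithTop L)) ≤ b}

/-- The union of the half-open intervals `(u₀, u₁]`, `(u₂, u₃]`, ... -/
def unionOf {L : Type} [LinearOrder L] : List (WithBot (WithTop L)) → Set L
  | a :: b :: t => interval a b ∪ unionOf t
  | _ => ∅

/-- `φ` is an isomorphism of the Boolean algebra `B` onto `Intal(L)`, the Boolean algebra of the
finite unions of half-open intervals of `L` under union, intersection and complement. -/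
structure IsIso {B : Type} [BooleanAlgebra B] {L : Type} [LinearOrder L] (φ : B → Set L) :
    Prop where
  inj : Function.Injective φ
  sup : ∀ a b, φ (a ⊔ b) = φ a ∪ φ b
  inf : ∀ a b, φ (a ⊓ b) = φ a ∩ φ b
  compl : ∀ a, φ aᶜ = (φ a)ᶜ
  range : ∀ X : Set L, (∃ a, φ a = X) ↔ ∃ u, X = unionOf u

/-- The code of an endpoint of `L` when the element `x` of `L` is the natural number `j x`:
`none` for `-∞`, `some none` for `+∞`, `some (some (j x))` for `x`. -/
def pt {L : Type} (j : L → ℕ) (a : WithBot (WithTop L)) : Option (Option ℕ) :=
  Option.map (Option.map j) a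

/-- In the canonical presentation of `Intal(L)`, `L` having the elements `j x`, the list `l` is a
code of `X`: it is the increasing list of the endpoints `u₀ < u₁ < ... < u_{2k-1}` of a
representation of `X` as the union of the intervals `(u₀, u₁]`, `(u₂, u₃]`, ... -/
def IsCode {L : Type} [LinearOrder L] (j : L → ℕ) (l : List (Option (Option ℕ))) (X : Set L) :
    Prop :=
  ∃ u : List (WithBot (WithTop L)), u.Pairwise (· < ·) ∧ Even u.length ∧ l = u.map (pt j) ∧
    X = unionOf u

section aux

variable {L : Type} [LinearOrder L] (o : L ≃o ℕ)

include o in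
theorem Iic_finite (y : L) : {x : L | x ≤ y}.Finite := by
  have : {x : L | x ≤ y} = o ⁻¹' (Set.Iic (o y)) := by
    ext x
    simp
  rw [this]
  exact (Set.finite_Iic (o y)).preimage o.injective.injOn

include o in
theorem infinite_univ : (Set.univ : Set L).Infinite := by
  have : Infinite L := o.toEquiv.infinite_iff.2 inferInstance
  exact Set.infinite_univ

include o in
theorem interval_finite {a b : WithBot (WithTop L)} (hb : b ≠ ⊤) : (interval a b).Finite := by
  induction b using WithBot.recBotCoe with
  | bot =>
    refine Set.finite_empty.subset ?_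
    rintro x ⟨_, h2⟩
    simp at h2
  | coe b =>
    induction b using WithTop.recTopCoe with
    | top => exact absurd rfl hb
    | coe y =>
      refine (Iic_finite o y).subset ?_
      rintro x ⟨_, h2⟩
      rw [WithBot.coe_le_coe, WithTop.coe_le_coe] at h2
      exact h2

include o in
theorem interval_top {a : WithBot (WithTop L)} (ha : a < ⊤) : (interval a ⊤)ᶜ.Finite := by
  induction a using WithBot.recBotCoe with
  | bot =>
    refine Set.finite_empty.subset ?_
    intro x hx
    exact absurd ⟨WithBot.bot_lt_coe _, le_top⟩ hx
  | coe a =>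
    induction a using WithTop.recTopCoe with
    | top => exact absurd ha (lt_irrefl _)
    | coe y =>
      refine (Iic_finite o y).subset ?_
      intro x hx
      by_contra hxy
      refine hx ⟨?_, le_top⟩
      rw [WithBot.coe_lt_coe, WithTop.coe_lt_coe]
      exact not_le.1 hxy

include o in
theorem unionOf_last : ∀ u : List (WithBot (WithTop L)), u.Pairwise (· < ·) → Even u.length →
    (u.getLast? = some ⊤ → (unionOf u)ᶜ.Finite) ∧ (u.getLast? ≠ some ⊤ → (unionOf u).Finite)
  | [], _, _ => ⟨fun h => by simp at h, fun _ => Set.finite_empty⟩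
  | [a], _, h => by simp at h
  | a :: b :: [], hp, _ => by
    have hab : a < b := (List.pairwise_cons.1 hp).1 b (by simp)
    have hu : unionOf (L := L) [a, b] = interval a b := by
      simp [unionOf]
    rw [hu]
    constructor
    · intro h
      have hb : b = ⊤ := by simpa using h
      subst hb
      exact interval_top o hab
    · intro h
      have hb : b ≠ ⊤ := by
        intro hb
        exact h (by simp [hb])
      exact interval_finite o hb
  | a :: b :: c :: t, hp, he => by
    have hp1 := List.pairwise_cons.1 hp
    have hp2 := List.pairwise_cons.1 hp1.2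
    have hbc : b < c := hp2.1 c (by simp)
    have hb : b ≠ ⊤ := fun h => absurd hbc (by rw [h]; exact not_top_lt)
    have he' : Even (c :: t).length := by
      simp only [List.length_cons] at he ⊢
      rw [Nat.even_iff] at he ⊢
      omega
    obtain ⟨ih1, ih2⟩ := unionOf_last (c :: t) hp2.2 he'
    have hl : (a :: b :: c :: t).getLast? = (c :: t).getLast? := by
      simp [List.getLast?_cons_cons]
    have hu : unionOf (a :: b :: c :: t) = interval a b ∪ unionOf (c :: t) := rfl
    rw [hl, hu]
    constructor
    · intro h
      refine (ih1 h).subset ?_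
      intro x hx hx'
      exact hx (Or.inr hx')
    · intro h
      exact (interval_finite o hb).union (ih2 h)

theorem mem_above (y x : L) :
    x ∈ interval (WithBot.some (WithTop.some y)) ⊤ ↔ y < x := by
  constructor
  · rintro ⟨h1, _⟩
    rwa [WithBot.coe_lt_coe, WithTop.coe_lt_coe] at h1
  · intro h
    refine ⟨?_, le_top⟩
    rwa [WithBot.coe_lt_coe, WithTop.coe_lt_coe]

include o in
theorem singleton_interval (y : L) : ∃ a b : WithBot (WithTop L), interval a b = {y} := by
  rcases Nat.eq_zero_or_pos (o y) with h | h
  · refine ⟨⊥, ((y : WithTop L) : WithBot (WithTop L)), ?_⟩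
    ext x
    simp only [interval, Set.mem_ofPred_eq, Set.mem_singleton_iff,
      WithBot.bot_lt_coe, true_and, WithBot.coe_le_coe, WithTop.coe_le_coe]
    constructor
    · intro hx
      apply le_antisymm hx
      rw [← o.le_iff_le, h]
      exact Nat.zero_le _
    · rintro rfl; exact le_rfl
  · refine ⟨((o.symm (o y - 1) : WithTop L) : WithBot (WithTop L)),
      ((y : WithTop L) : WithBot (WithTop L)), ?_⟩
    ext x
    simp only [interval, Set.mem_ofPred_eq, Set.mem_singleton_iff,
      WithBot.coe_lt_coe, WithTop.coe_lt_coe, WithBot.coe_le_coe, WithTop.coe_le_coe]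
    rw [← o.lt_iff_lt, o.apply_symm_apply, ← o.le_iff_le]
    constructor
    · rintro ⟨h1, h2⟩
      apply o.injective
      omega
    · rintro rfl
      omega

include o in
theorem singleton_union (y : L) : ∃ u, ({y} : Set L) = unionOf u := by
  obtain ⟨a, b, h⟩ := singleton_interval o y
  exact ⟨[a, b], by simp [unionOf, h]⟩

include o in
theorem unionOf_fc : ∀ u : List (WithBot (WithTop L)), (unionOf u).Finite ∨ (unionOf u)ᶜ.Finite
  | [] => Or.inl Set.finite_empty
  | [_] => Or.inl Set.finite_empty
  | a :: b :: t => by
    have hu : unionOf (a :: b :: t) = interval a b ∪ unionOf t := rfl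
    rw [hu]
    rcases unionOf_fc t with ht | ht
    · by_cases hb : b = ⊤
      · subst hb
        by_cases ha : a = ⊤
        · subst ha
          left
          refine Set.Finite.union (Set.finite_empty.subset ?_) ht
          rintro x ⟨h1, _⟩
          exact absurd h1 not_top_lt
        · right
          refine (interval_top o (lt_top_iff_ne_top.2 ha)).subset ?_
          intro x hx hx'
          exact hx (Or.inl hx')
      · exact Or.inl ((interval_finite o hb).union ht)
    · right
      refine ht.subset ?_
      intro x hx hx'
      exact hx (Or.inr hx')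

end aux

theorem finite_union {X : Set ℕ} (hX : X.Finite) : ∃ u, X = unionOf u := by
  induction X, hX using Set.Finite.induction_on with
  | empty => exact ⟨[], rfl⟩
  | @insert a s _ _ ih =>
    obtain ⟨u, hu⟩ := ih
    obtain ⟨c, d, h⟩ := singleton_interval (OrderIso.refl ℕ) a
    refine ⟨c :: d :: u, ?_⟩
    show insert a s = interval c d ∪ unionOf u
    rw [h, ← hu]
    rfl

theorem mem_FC_iff (X : Set ℕ) : X ∈ FC ↔ ∃ u, X = unionOf u := by
  constructor
  · rintro (h | h)
    · exact finite_union h
    · obtain ⟨N, hN⟩ := h.bddAbove
      have hfin : (X ∩ Set.Iic N).Finite := (Set.finite_Iic N).subset Set.inter_subset_right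
      obtain ⟨u, hu⟩ := finite_union hfin
      refine ⟨WithBot.some (WithTop.some N) :: ⊤ :: u, ?_⟩
      show X = interval (WithBot.some (WithTop.some N)) ⊤ ∪ unionOf u
      rw [← hu]
      ext x
      constructor
      · intro hx
        by_cases hxN : x ≤ N
        · exact Or.inr ⟨hx, hxN⟩
        · exact Or.inl ((mem_above N x).2 (not_le.1 hxN))
      · rintro (h1 | h1)
        · rw [mem_above] at h1
          by_contra hx
          exact absurd (hN hx) (not_le.2 h1)
        · exact h1.1
  · rintro ⟨u, rfl⟩
    exact unionOf_fc (OrderIso.refl ℕ) u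

/-- the inclusion is an isomorphism of the finite-cofinite algebra onto `Intal(ω)` -/
theorem isIso_FC : IsIso (fun a : FC => (a : Set ℕ)) where
  inj := Subtype.coe_injective
  sup _ _ := rfl
  inf _ _ := rfl
  compl _ := rfl
  range X := by
    rw [← mem_FC_iff]
    constructor
    · rintro ⟨a, rfl⟩; exact a.2
    · intro h; exact ⟨⟨X, h⟩, rfl⟩

theorem iso_bot {B : Type} [BooleanAlgebra B] {L : Type} [LinearOrder L] {φ : B → Set L}
    (h : IsIso φ) : φ ⊥ = ∅ := by
  have : φ (⊥ ⊓ ⊥ᶜ) = φ ⊥ ∩ (φ ⊥)ᶜ := by rw [h.inf, h.compl]
  rwa [inf_compl_eq_bot, Set.inter_compl_self] at this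

/-- finite elements are sent to finite sets -/
theorem iso_finite {L : Type} [LinearOrder L] (o : L ≃o ℕ) {φ : FC → Set L} (hφ : IsIso φ)
    (X : Set ℕ) (hX : X.Finite) : ∀ h : X ∈ FC, (φ ⟨X, h⟩).Finite := by
  have hsing : ∀ x : ℕ, ∀ h : ({x} : Set ℕ) ∈ FC, (φ ⟨{x}, h⟩).Finite := by
    intro x h
    apply Set.Subsingleton.finite
    intro y hy z hz
    by_contra hne
    obtain ⟨b, hb⟩ := (hφ.range {y}).2 (singleton_union o y)
    have h3 : φ (b ⊓ ⟨{x}, h⟩) = φ b := by
      rw [hφ.inf, hb]
      ext w
      simp only [Set.mem_inter_iff, Set.mem_singleton_iff]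
      constructor
      · rintro ⟨h, _⟩; exact h
      · rintro rfl; exact ⟨rfl, hy⟩
    have h4 : b ⊓ ⟨{x}, h⟩ = b := hφ.inj h3
    have h5 : (b : Set ℕ) ⊆ {x} := by
      intro w hw
      have h6 : w ∈ ((b ⊓ ⟨{x}, h⟩ : FC) : Set ℕ) := by rw [h4]; exact hw
      exact h6.2
    rcases Set.subset_singleton_iff_eq.1 h5 with h6 | h6
    · have h7 : b = ⊥ := Subtype.ext h6
      rw [h7, iso_bot hφ] at hb
      exact absurd hb (Set.singleton_ne_empty y).symm
    · have h7 : b = ⟨{x}, h⟩ := Subtype.ext h6
      rw [← h7, hb] at hz
      exact hne hz.symm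
  induction X, hX using Set.Finite.induction_on with
  | empty =>
    intro h
    have : (⟨∅, h⟩ : FC) = ⊥ := rfl
    rw [this, iso_bot hφ]
    exact Set.finite_empty
  | @insert a s ha hs ih =>
    intro h
    have e1 : ({a} : Set ℕ) ∈ FC := Or.inl (Set.finite_singleton a)
    have e2 : s ∈ FC := Or.inl hs
    have : (⟨insert a s, h⟩ : FC) = ⟨{a}, e1⟩ ⊔ ⟨s, e2⟩ := rfl
    rw [this, hφ.sup]
    exact (hsing a e1).union (ih e2)

/-- There is a computable Boolean algebra `B` with domain `ω` (through `e`), isomorphic to
`Intal(ω)`, which is not computably isomorphic to the canonical presentation of `Intal(L)` for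
any linear ordering `L` of order type `ω` whose elements are natural numbers (through `j`),
computable or not. -/
theorem result : ∃ (B : Type) (_ : BooleanAlgebra B) (e : ℕ ≃ B),
    Computable₂ (fun m n : ℕ => e.symm (e m ⊔ e n)) ∧
    Computable₂ (fun m n : ℕ => e.symm (e m ⊓ e n)) ∧
    Computable (fun n : ℕ => e.symm (e n)ᶜ) ∧
    (∃ φ : B → Set ℕ, IsIso φ) ∧
    ∀ (L : Type) [LinearOrder L] (j : L → ℕ), Function.Injective j → Nonempty (L ≃o ℕ) →
      ¬ ∃ φ : B → Set L, IsIso φ ∧ ∃ c : ℕ → List (Option (Option ℕ)), Computable c ∧
        ∀ n, IsCode j (c n) (φ (e n)) := by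
  refine ⟨FC, inferInstance, enumFC, sup_computable, inf_computable, compl_computable,
    ⟨_, isIso_FC⟩, ?_⟩
  rintro L _ j _ ⟨o⟩ ⟨φ, hφ, c, hc, hcode'⟩
  apply isTrue_not_computable
  have hlast : ∀ (u : List (WithBot (WithTop L))),
      ((u.map (pt j)).getLast? = some (some none) ↔ u.getLast? = some ⊤) := by
    intro u
    rw [List.getLast?_map]
    cases hu : u.getLast? with
    | none => simp
    | some a =>
      rw [Option.map_some]
      constructor
      · intro h
        have h1 : pt j a = some none := by simpa using h
        congr 1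
        induction a using WithBot.recBotCoe with
        | bot =>
          exfalso
          have h2 : (none : Option (Option ℕ)) = some none := h1
          simp at h2
        | coe a =>
          induction a using WithTop.recTopCoe with
          | top => rfl
          | coe y =>
            exfalso
            have h2 : (some (some (j y)) : Option (Option ℕ)) = some none := h1
            simp at h2
      · intro h
        have h1 : a = ⊤ := by simpa using h
        subst h1
        rfl
  -- cofiniteness is computable
  have key : ∀ n : ℕ, ((enumFC n : FC) : Set ℕ)ᶜ.Finite ↔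
      (c n).getLast? = some (some none) := by
    intro n
    obtain ⟨u, hu1, hu2, hu3, hu4⟩ := hcode' n
    rw [hu3, hlast]
    obtain ⟨k1, k2⟩ := unionOf_last o u hu1 hu2
    constructor
    · intro hcof
      by_contra hcon
      have hfin1 : (φ (enumFC n)).Finite := by rw [hu4]; exact k2 hcon
      have hfin2 : (φ (enumFC n)ᶜ).Finite := iso_finite o hφ _ hcof ((enumFC n)ᶜ).2
      rw [hφ.compl] at hfin2
      exact infinite_univ o (by
        rw [← Set.union_compl_self (φ (enumFC n))]
        exact hfin1.union hfin2)
    · intro hx
      rcases (enumFC n).2 with hfin | hcof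
      · exfalso
        have hfin1 : (φ (enumFC n)).Finite := iso_finite o hφ _ hfin (enumFC n).2
        have hfin2 : (φ (enumFC n))ᶜ.Finite := by rw [hu4]; exact k1 hx
        exact infinite_univ o (by
          rw [← Set.union_compl_self (φ (enumFC n))]
          exact hfin1.union hfin2)
      · exact hcof
  have hcode : ∀ s : ℕ, code (2 ^ s) = {s} := by
    intro s
    have : Finset.equivBitIndices.symm {s} = 2 ^ s := by simp
    unfold code
    rw [← this, Equiv.apply_symm_apply]
  have htrue : ∀ s : ℕ, IsTrue enumF s ↔ (c (2 ^ s)).getLast? = some (some none) := by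
    intro s
    rw [← key (2 ^ s), enumFC_coe, hcode, Phi_singleton]
    constructor
    · intro ht
      refine (true_below_finite ht).subset ?_
      intro x hx
      have hx' : ¬ leF enumF s x := hx
      have hne : s ≠ x := by
        rintro rfl; exact hx' (leF_refl _)
      exact (not_leF_iff enumF_injective hne).1 hx'
    · intro hfin
      by_contra hnt
      have h3 := false_above_finite enumF_injective hnt
      have : (Set.univ : Set ℕ).Finite := by
        rw [← Set.union_compl_self {x | leF enumF s x}]
        exact h3.union hfin
      exact Set.infinite_univ this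
  have hcomp : ComputablePred (fun n : ℕ => (c n).getLast? = some (some none)) := by
    rw [ComputablePred.computable_iff]
    refine ⟨fun n => decide ((c n).reverse.head? = some (some none)), ?_, ?_⟩
    · have e1 : Computable (fun n => (c n).reverse.head?) :=
        Computable.comp (Primrec.list_head?.to_comp)
          (Computable.comp (Primrec.list_reverse.to_comp) hc)
      have e2 : Computable (fun o : Option (Option (Option ℕ)) =>
          decide (o = some (some none))) := by
        have := (Primrec.eq (α := Option (Option (Option ℕ)))).comp Primrec.id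
          (Primrec.const (some (some none)))
        exact this.decide.to_comp
      exact e2.comp e1
    · funext n
      apply propext
      rw [List.getLast?_eq_head?_reverse]
      simp
  obtain ⟨g, hg, hg'⟩ := ComputablePred.computable_iff.1 hcomp
  rw [ComputablePred.computable_iff]
  refine ⟨fun s => g (2 ^ s), hg.comp nat_pow_primrec.to_comp, ?_⟩
  funext s
  have := congrFun hg' (2 ^ s)
  rw [← this]
  exact propext (htrue s)

end Pool.Agent.Results.MP_a2ec29_lc.Full
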